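import Mathlib
import Pool.Agent.R464.TwoNearDiv

/-!
# 2-near perfect numbers `2 ^ k * p ^ m` with `m ≥ 2`

The 2-near perfect numbers of the form `2 ^ k * p ^ m` with `p` prime, `k ≥ 0` and `m ≥ 2` are
exactly `18`, `36`, `200` and the numbers `2 ^ k * q ^ 3` with `q = 2 ^ (k + 1) - 1` prime.
-/

set_option autoImplicit false

namespace Pool.Agent.Results.MP_d695ac_nt.FullClassification

/-- `n` is 2-near perfect: `σ(n) = 2 n + d₁ + d₂` for two distinct positive divisors `d₁`, `d₂`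
of `n`. -/
def TwoNearPerfect (n : ℕ) : Prop :=
  0 < n ∧ ∃ d₁ d₂ : ℕ, 0 < d₁ ∧ 0 < d₂ ∧ d₁ ∣ n ∧ d₂ ∣ n ∧ d₁ ≠ d₂ ∧
    ∑ d ∈ n.divisors, d = 2 * n + d₁ + d₂

/-- The 2-near perfect numbers of the form `2 ^ k * p ^ m`, with `p` prime, `k ≥ 0` and
`m ≥ 2`. -/
def family : Set ℕ :=
  {n | TwoNearPerfect n ∧ ∃ p k m : ℕ, p.Prime ∧ 2 ≤ m ∧ n = 2 ^ k * p ^ m}

/-- The numbers `2 ^ k * (2 ^ (k + 1) - 1) ^ 3` with `2 ^ (k + 1) - 1` prime. -/
def mersenneFamily : Set ℕ :=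
  {n | ∃ k : ℕ, (2 ^ (k + 1) - 1).Prime ∧ n = 2 ^ k * (2 ^ (k + 1) - 1) ^ 3}

/-- The set of Mersenne primes. -/
def mersennePrimes : Set ℕ := {q | q.Prime ∧ ∃ r : ℕ, q = 2 ^ r - 1}

theorem mersenne_odd {k : ℕ} : Odd (2 ^ (k + 1) - 1) := by
  apply Nat.Even.sub_odd Nat.one_le_two_pow
  · rw [Nat.even_pow]; exact ⟨even_two, by omega⟩
  · exact odd_one

theorem mem18 : TwoNearPerfect 18 := by
  refine ⟨by norm_num, 1, 2, by norm_num, by norm_num, by norm_num, by norm_num, by norm_num, ?_⟩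
  decide +kernel

theorem mem36 : TwoNearPerfect 36 := by
  refine ⟨by norm_num, 1, 18, by norm_num, by norm_num, by norm_num, by norm_num, by norm_num, ?_⟩
  decide +kernel

theorem mem200 : TwoNearPerfect 200 := by
  refine ⟨by norm_num, 25, 40, by norm_num, by norm_num, by norm_num, by norm_num, by norm_num, ?_⟩
  decide +kernel

theorem family_eq : family = {18, 36, 200} ∪ mersenneFamily := by
  ext n
  constructor
  · rintro ⟨⟨-, d₁, d₂, -, -, h1, h2, hne, h⟩, p, k, m, hp, hm, rfl⟩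
    rcases hp.eq_two_or_odd' with rfl | hpo
    · exfalso
      rw [← pow_add] at h
      exact R464.TwoNear.not_two_pow h
    · rcases R464.TwoNear.classification hp hpo hm h1 h2 hne h with ⟨rfl, h3⟩ | ⟨rfl, h3⟩
      · left
        rcases h3 with ⟨rfl, rfl⟩ | ⟨rfl, rfl⟩ | ⟨rfl, rfl⟩
        · left; norm_num
        · right; left; norm_num
        · right; right; norm_num
      · right
        refine ⟨k, ?_, ?_⟩
        · rw [← h3]; exact hp
        · rw [← h3]
  · rintro ((rfl | rfl | rfl) | ⟨k, hk, rfl⟩)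
    · exact ⟨mem18, 3, 1, 2, by norm_num, le_rfl, by norm_num⟩
    · exact ⟨mem36, 3, 2, 2, by norm_num, le_rfl, by norm_num⟩
    · exact ⟨mem200, 5, 3, 2, by norm_num, le_rfl, by norm_num⟩
    · refine ⟨?_, 2 ^ (k + 1) - 1, k, 3, hk, by norm_num, rfl⟩
      have hp0 := hk.pos
      refine ⟨by positivity, 2 ^ (k + 1) - 1, (2 ^ (k + 1) - 1) ^ 2, hp0, by positivity, ?_, ?_,
        ?_, R464.TwoNear.mersenne_family hk rfl⟩
      · exact Dvd.dvd.mul_left (dvd_pow_self _ (by norm_num)) _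
      · exact Dvd.dvd.mul_left (pow_dvd_pow _ (by norm_num)) _
      · intro h
        have := hk.one_lt
        generalize 2 ^ (k + 1) - 1 = x at *
        nlinarith

/-- The map `q ↦ (q + 1) / 2 * q ^ 3`. -/
def f (q : ℕ) : ℕ := (q + 1) / 2 * q ^ 3

theorem f_mono {q q' : ℕ} (h : q < q') (hq : 2 ≤ q') : f q < f q' := by
  have h1 : (q + 1) / 2 ≤ (q' + 1) / 2 := Nat.div_le_div_right (by omega)
  have h2 : q ^ 3 < q' ^ 3 := Nat.pow_lt_pow_left h (by norm_num)
  have h3 : 0 < (q' + 1) / 2 := by omega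
  exact lt_of_le_of_lt (Nat.mul_le_mul_right _ h1) (Nat.mul_lt_mul_of_pos_left h2 h3)

theorem f_mersenne (k : ℕ) : f (2 ^ (k + 1) - 1) = 2 ^ k * (2 ^ (k + 1) - 1) ^ 3 := by
  have h3 : 1 ≤ 2 ^ (k + 1) := Nat.one_le_two_pow
  have h2 : (2 ^ (k + 1) - 1 + 1) / 2 = 2 ^ k := by
    rw [pow_succ] at *
    omega
  rw [f, h2]

theorem image_eq : f '' mersennePrimes = mersenneFamily := by
  ext n
  constructor
  · rintro ⟨q, ⟨hq, r, hr⟩, rfl⟩
    have hq2 := hq.two_le
    have hr2 : 2 ≤ r := by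
      by_contra hcon
      have : r = 0 ∨ r = 1 := by omega
      rcases this with rfl | rfl <;> simp at hr <;> omega
    obtain ⟨k, rfl⟩ : ∃ k, r = k + 1 := ⟨r - 1, by omega⟩
    subst hr
    exact ⟨k, hq, f_mersenne k⟩
  · rintro ⟨k, hk, rfl⟩
    exact ⟨2 ^ (k + 1) - 1, ⟨hk, k + 1, rfl⟩, f_mersenne k⟩

theorem injOn : Set.InjOn f mersennePrimes := by
  intro q hq q' hq' h
  by_contra hne
  rcases lt_or_gt_of_ne hne with hlt | hlt
  · have := f_mono hlt hq'.1.two_le; omega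
  · have := f_mono hlt hq.1.two_le; omega

theorem result :
    family = {18, 36, 200} ∪ mersenneFamily ∧ (family.Finite ↔ mersennePrimes.Finite) := by
  refine ⟨family_eq, ?_⟩
  rw [family_eq, ← image_eq]
  constructor
  · intro h
    exact (h.subset Set.subset_union_right).of_finite_image injOn
  · intro h
    exact Set.Finite.union (by simp) (h.image f)

end Pool.Agent.Results.MP_d695ac_nt.FullClassification
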